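import Pool.Agent.Y463.RW.Fin
import Pool.Agent.Y463.MP.Fin
import Pool.Agent.W639.RB.Knots
import Pool.Agent.H297.FT.Knotoid

/-!
# Knotoid diagrams with braids in a box; words with a given permutation
-/

set_option autoImplicit false

namespace Pool.Agent.Y463.KN

open Finset LaurentPolynomial Pool.Agent.H891R2.Jones Pool.Agent.W639.RB Pool.Agent.Y463.SK 
  Pool.Agent.Y463.RW Pool.Agent.Y463.MP Pool.Agent.H297.FT Pool.Agent.H832R3.TW

variable {m : ℕ}

theorem kgood_draw (v : Fin m → Bool) (w : List (Bool × ℕ)) : ∀ (O : Outer m), 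
    KGood O v → KGood (draw O w) v := by
  induction w with
  | nil => intro O h; exact h
  | cons x w ih =>
    intro O h
    exact ih _ (KGood_push O v x.1 x.2 h)

/-- a diagram of a knotoid stays one if a word which respects the directions is drawn in the box -/
theorem knotoid_draw (O : Outer m) (hO : IsKnotoid O.close) (w : List (Bool × ℕ)) 
    (hup : (draw O w).up = O.up) : IsKnotoid (draw O w).close := by
  rw [knotoid_iff, hup]
  rw [knotoid_iff] at hO
  exact kgood_draw O.up w O hO

theorem knotoid_diagram (O : Outer m) (hO : IsKnotoid O.close) {n : ℕ} (w : Fin n → Letter m) 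
    (hup : (draw O (toL w)).up = O.up) : IsKnotoid (diagram O w) := knotoid_draw O hO (toL w) hup

theorem dia_up (O : Outer m) (w : List (Letter m)) (h : ∀ j, O.up (permW w j) = O.up j) : 
    (draw O (toN w)).up = O.up := by
  have h2 := (draw_writhe (toN w) O (toN_lt _)).2
  apply Pool.Agent.Y463.SK.pat_inj
  rw [h2]
  funext i
  rw [Function.comp_apply]
  rcases Nat.lt_or_ge i m with hi | hi
  · have h4 := (permL_toN w).1 ⟨i, hi⟩
    simp only at h4
    rw [h4]
    unfold pat
    rw [dif_pos (Fin.is_lt _), dif_pos hi, Fin.eta, h]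
  · rw [(permL_toN w).2 i hi]

theorem knotoid_dia (O : Outer m) (hO : IsKnotoid O.close) (w : List (Letter m)) 
    (h : ∀ j, O.up (permW w j) = O.up j) : IsKnotoid (dia O w) := 
  knotoid_draw O hO (toN w) (dia_up O w h)

/-- the directions of the strands of the open box after drawing a word depend only on the places of the
letters -/
theorem up_places : ∀ (l l' : List (Bool × ℕ)) (O O' : Outer m), l.map Prod.snd = l'.map Prod.snd → 
    O.up = O'.up → (draw O l).up = (draw O' l').up := by
  intro l
  induction l with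
  | nil =>
    intro l' O O' h hO
    have h1 : l' = [] := by
      have := congrArg List.length h
      simp only [List.map_nil, List.length_nil, List.length_map] at this
      exact List.eq_nil_of_length_eq_zero this.symm
    subst h1
    exact hO
  | cons x l ih =>
    intro l' O O' h hO
    rcases l' with _ | ⟨x', l'⟩
    · simp at h
    · rw [List.map_cons, List.map_cons, List.cons.injEq] at h
      refine ih l' (O.push x.1 x.2) (O'.push x'.1 x'.2) h.2 ?_
      rw [← h.1]
      by_cases hi : x.2 + 1 < m
      · rw [push_eq O x.1 x.2 hi, push_eq O' x'.1 x.2 hi]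
        unfold pushE
        dsimp only
        rw [hO]
      · unfold Outer.push
        rw [dif_neg hi, dif_neg hi]
        exact hO

theorem flips_up (O : Outer m) {n : ℕ} (w w' : Fin n → Letter m) (S : Finset (Fin n)) 
    (h : w' ∈ Flips w S) : (draw O (toL w')).up = (draw O (toL w)).up := by
  apply up_places _ _ _ _ _ rfl
  unfold toL
  rw [List.map_ofFn, List.map_ofFn]
  congr 1
  funext j
  simp only [Function.comp_apply]
  unfold Flips at h
  rw [Finset.mem_filter] at h
  rw [h.2.1 j]

/-- all words obtained by crossing changes give diagrams of knotoids if one of them does -/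
theorem flips_knotoid (O : Outer m) (hO : IsKnotoid O.close) {n : ℕ} (w : Fin n → Letter m) 
    (hup : (draw O (toL w)).up = O.up) (S : Finset (Fin n)) (w' : Fin n → Letter m) (h : w' ∈ Flips w S) : 
    IsKnotoid (diagram O w') := 
  knotoid_diagram O hO w' ((flips_up O w w' S h).trans hup)

/-- the directions after drawing a word -/
theorem up_perm (O : Outer m) {n : ℕ} (w : Fin n → Letter m) (h : ∀ j, O.up (perm w j) = O.up j) : 
    (draw O (toL w)).up = O.up := by
  have h1 : toL w = toN (List.ofFn w) := by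
    unfold toL toN
    rw [List.map_ofFn]
    rfl
  rw [h1]
  apply dia_up
  intro j
  have h2 : permW (List.ofFn w) = perm w := by
    unfold permW
    rw [perm_eq]
    rfl
  rw [h2]
  exact h j

open Classical in
theorem many_perm (hm : 2 ≤ m) : ∃ l0 : ℕ, ∀ (τ : Equiv.Perm (Fin m)) (n : ℕ), l0 ≤ n → 
    Equiv.Perm.sign τ = (-1) ^ n → 
    (2 * (m - 1)) ^ n ≤ (2 * (m - 1)) ^ l0 * (univ.filter (fun w : Fin n → Letter m => perm w = τ)).card := by
  obtain ⟨l0, hl0⟩ := exists_len hm
  refine ⟨l0, fun τ n hn hpar => ?_⟩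
  obtain ⟨k, rfl⟩ : ∃ k, n = k + l0 := ⟨n - l0, by omega⟩
  have h1 : ∀ w : Fin k → Letter m, ∃ s : Fin l0 → Letter m, perm s = (perm w)⁻¹ * τ := by
    intro w
    apply hl0
    rw [map_mul, map_inv, sign_perm, hpar, Int.units_inv_eq_self, ← pow_add]
    have h3 : k + (k + l0) = l0 + 2 * k := by ring
    rw [h3, pow_add, pow_mul (-1 : ℤˣ) 2 k]
    simp
  choose s hs using h1
  have h2 : (univ : Finset (Fin k → Letter m)).card ≤ 
      (univ.filter (fun w : Fin (k + l0) → Letter m => perm w = τ)).card := by
    apply Finset.card_le_card_of_injOn (fun w => Fin.append w (s w))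
    · intro w _
      rw [Finset.mem_coe, Finset.mem_filter]
      refine ⟨Finset.mem_univ _, ?_⟩
      rw [perm_append, hs, mul_inv_cancel_left]
    · intro w _ w' _ h
      funext i
      have := congrFun h (Fin.castAdd l0 i)
      simpa [Fin.append_left] using this
  rw [Finset.card_univ, Fintype.card_fun, Fintype.card_fin] at h2
  have h3 : Fintype.card (Letter m) = 2 * (m - 1) := by simp
  rw [h3] at h2
  calc (2 * (m - 1)) ^ (k + l0) = (2 * (m - 1)) ^ l0 * (2 * (m - 1)) ^ k := by rw [pow_add]; ring
    _ ≤ _ := Nat.mul_le_mul_left _ h2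

open Classical in
/-- proportions among the words with a given permutation -/
theorem permsE (hm : 2 ≤ m) (r : ℝ) (hr : 0 < r) : ∃ (l0 : ℕ) (c : ℝ), 0 ≤ c ∧ 
    ∀ (τ : Equiv.Perm (Fin m)) (n : ℕ) (C : ℝ)
    (E : (Fin n → Letter m) → Prop), l0 ≤ n → Equiv.Perm.sign τ = (-1) ^ n → 0 ≤ C → 
    Pr (fun _ => 1 / ((2 * (m - 1) : ℕ) : ℝ)) n E ≤ C * r ^ n → 
      ((univ.filter (fun w : Fin n → Letter m => perm w = τ ∧ E w)).card : ℝ) ≤ 
        c * C * r ^ n * (univ.filter (fun w : Fin n → Letter m => perm w = τ)).card := by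
  obtain ⟨l0, hl0⟩ := many_perm (m := m) hm
  set D : ℕ := 2 * (m - 1) with hD
  have hDpos : (0:ℝ) < D := by
    have : 0 < D := by omega
    exact_mod_cast this
  refine ⟨l0, (D:ℝ) ^ l0, by positivity, ?_⟩
  intro τ n C E hn hpar hC0 hC
  have h1 : ((univ.filter (fun w : Fin n → Letter m => perm w = τ ∧ E w)).card : ℝ) ≤ 
      (univ.filter (fun w : Fin n → Letter m => E w)).card := by
    norm_cast
    refine Finset.card_le_card fun w hw => ?_
    rw [Finset.mem_filter] at hw ⊢
    exact ⟨hw.1, hw.2.2⟩
  have h2 : ((univ.filter (fun w : Fin n → Letter m => E w)).card : ℝ) * (1 / (D:ℝ)) ^ n = 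
      Pr (fun _ => 1 / (D:ℝ)) n E := by
    unfold Pr
    rw [← nsmul_eq_mul, ← Finset.sum_const, Finset.sum_filter]
    refine Finset.sum_congr rfl fun w _ => ?_
    split_ifs
    · rw [Finset.prod_const, Finset.card_univ, Fintype.card_fin]
    · rfl
  have h3 : ((D:ℝ)) ^ n ≤ (D:ℝ) ^ l0 * ((univ.filter (fun w : Fin n → Letter m => perm w = τ)).card : ℝ) := by
    exact_mod_cast hl0 τ n hn hpar
  have hDn : (0:ℝ) < (D:ℝ) ^ n := by positivity
  have h4 : ((univ.filter (fun w : Fin n → Letter m => E w)).card : ℝ) ≤ C * r ^ n * (D:ℝ) ^ n := by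
    rw [← h2, div_pow, one_pow, mul_one_div, div_le_iff₀ hDn] at hC
    exact hC
  have h5 : 0 ≤ C * r ^ n := by positivity
  calc _ ≤ C * r ^ n * (D:ℝ) ^ n := h1.trans h4
    _ ≤ C * r ^ n * ((D:ℝ) ^ l0 * ((univ.filter (fun w : Fin n → Letter m => perm w = τ)).card : ℝ)) := 
      mul_le_mul_of_nonneg_left h3 h5
    _ = _ := by ring

theorem permW_multi {k : ℕ} (w v : Fin k → List (Letter m)) (r : Fin k → ℕ) 
    (hr : ∀ i, IsPure (powW (w i) (r i))) (s q : Fin k → ℤ) : 
    permW (multiW w v (fun i => r i * q i + s i)) = permW (multiW w v s) := by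
  have h0 : ∀ q : Fin k → ℤ, permL (toN (multiW w v (fun i => r i * q i + s i))) = 
      permL (List.ofFn (fun i => powL (toN (w i)) (s i) ++ toN (v i))).flatten := by
    intro q
    rw [(multi_eqv w v r s q).2.1, toN_multi, permL_flatten, permL_flatten, 
      List.map_ofFn, List.map_ofFn]
    congr 2
    funext i
    simp only [Function.comp_apply]
    have hp := permL_of_pure (hr i)
    rw [permL_append, permL_powL hp, one_mul, toN_append, toN_pow]
  have h1 : permL (toN (multiW w v (fun i => r i * q i + s i))) = permL (toN (multiW w v s)) := by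
    rw [h0 q, toN_multi]
  ext j
  have h2 := (permL_toN (multiW w v (fun i => r i * q i + s i))).1 j
  have h3 := (permL_toN (multiW w v s)).1 j
  rw [h1] at h2
  exact h2.symm.trans h3

end Pool.Agent.Y463.KN
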